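import Pool.Agent.Y201.LI.Stm

/-! # Project LI: closed points on the intersection of two generic members -/

set_option autoImplicit false
set_option linter.all false

namespace Pool.Agent.Y261.LI

open MvPolynomial IntermediateField Module Pool.Agent.Y201.LI

noncomputable section

/-! ## field theory -/

/-- the last element is transcendental over the field generated by the others -/
theorem transc {B K κ : Type} [Field B] [Field K] [Algebra B K] {x : κ → K}
    (hx : AlgebraicIndependent B x) {s : Set κ} {i : κ} (hi : i ∉ s) {S : Set K} (hS : x '' s = S) :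
    Transcendental (adjoin B S) (x i) := by
  rw [← hS, IntermediateField.transcendental_adjoin_iff]
  exact hx.transcendental_adjoin hi

/-- generators of a subfield -/
theorem gen_top {B K : Type} [Field B] [Field K] [Algebra B K] (F : IntermediateField B K)
    (S : Set F) (hS : adjoin B (Subtype.val '' S) = F) : adjoin B S = ⊤ := by
  apply IntermediateField.lift_injective F
  rw [lift_adjoin, lift_top, hS]

/-- algebraic independence in a subfield -/
theorem ind_sub {B K κ : Type} [Field B] [Field K] [Algebra B K] (F : IntermediateField B K)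
    (x : κ → F) (hx : AlgebraicIndependent B (fun i => (x i : K))) : AlgebraicIndependent B x :=
  AlgebraicIndependent.of_comp F.val hx

theorem gen_step {B K : Type} [Field B] [Field K] [Algebra B K] {S S' : Set K} {l : K}
    (h : adjoin B S = ⊤) (hS : S ⊆ S' ∪ {l}) : adjoin (adjoin B S') {l} = ⊤ := by
  rw [← IntermediateField.restrictScalars_eq_top_iff (K := B), adjoin_adjoin_left, ← top_le_iff, ← h]
  exact adjoin.mono _ _ _ hS

section deg
variable {F K E : Type} [Field F] [Field K] [Field E] [Algebra F K] [Algebra K E] [Algebra F E]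
  [IsScalarTower F K E] {l : K}

theorem mem_simple (h : adjoin F {l} = ⊤) (x : K) : algebraMap K E x ∈ F⟮algebraMap K E l⟯ := by
  have h1 : (adjoin F {l}).map (IsScalarTower.toAlgHom F K E) = F⟮algebraMap K E l⟯ := by
    rw [adjoin_map, Set.image_singleton]
    rfl
  rw [← h1, h]
  exact ⟨x, trivial, rfl⟩

theorem simple_mem {z : E} (hz : z ∈ F⟮algebraMap K E l⟯) : ∃ x : K, algebraMap K E x = z := by
  have h1 : (adjoin F {l}).map (IsScalarTower.toAlgHom F K E) = F⟮algebraMap K E l⟯ := by
    rw [adjoin_map, Set.image_singleton]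
    rfl
  rw [← h1] at hz
  obtain ⟨x, -, hx⟩ := hz
  exact ⟨x, hx⟩

/-- the isomorphism -/
def eqv (h : adjoin F {l} = ⊤) : K ≃+* F⟮algebraMap K E l⟯ :=
  RingEquiv.ofBijective
    ((algebraMap K E).codRestrict F⟮algebraMap K E l⟯.toSubring (fun x => mem_simple h x)) (by
      constructor
      · intro x y hxy
        exact (algebraMap K E).injective (congrArg Subtype.val hxy)
      · rintro ⟨z, hz⟩
        obtain ⟨x, hx⟩ := simple_mem hz
        exact ⟨x, Subtype.ext hx⟩)

theorem eqv_comp (h : adjoin F {l} = ⊤) :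
    (algebraMap F⟮algebraMap K E l⟯ E).comp (eqv h : K ≃+* F⟮algebraMap K E l⟯).toRingHom =
      (RingEquiv.refl E).toRingHom.comp (algebraMap K E) := by
  ext x
  rfl

theorem fin_simple (h : adjoin F {l} = ⊤) [FiniteDimensional K E] :
    FiniteDimensional F⟮algebraMap K E l⟯ E :=
  Module.Finite.of_equiv_equiv (eqv h) (RingEquiv.refl E) (eqv_comp h)

theorem finrank_simple (h : adjoin F {l} = ⊤) :
    finrank F⟮algebraMap K E l⟯ E = finrank K E :=
  (Algebra.finrank_eq_of_equiv_equiv (eqv h) (RingEquiv.refl E) (eqv_comp h)).symm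

end deg

/-! ## forms -/

section forms
variable {B : Type} [Field B] {r e m : ℕ} {Z : Set (MvPolynomial (Fin r) B)}

theorem bpf_insert {Φ : Fin (m + 1) → MvPolynomial (Fin r) B} (h : Bpf Z Φ) :
    Bpf (insert (Φ (Fin.last m)) Z) (fun i : Fin m => Φ i.castSucc) := by
  intro κ _ φ z h1 h2
  refine h κ φ z (fun G hG => h1 G (Set.mem_insert_of_mem _ hG)) fun i => ?_
  refine Fin.lastCases ?_ (fun j => ?_) i
  · exact h1 _ (Set.mem_insert _ _)
  · exact h2 j

theorem hom_insert {Φ : Fin (m + 1) → MvPolynomial (Fin r) B}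
    (hZ : ∀ G ∈ Z, ∃ d, G.IsHomogeneous d) (hΦ : ∀ i, (Φ i).IsHomogeneous e) :
    ∀ G ∈ insert (Φ (Fin.last m)) Z, ∃ d, G.IsHomogeneous d := by
  intro G hG
  rcases hG with rfl | hG
  · exact ⟨e, hΦ _⟩
  · exact hZ G hG

/-- the linear combination of the forms -/
def lin {F : Type} [Field F] [Algebra B F] (a : Fin m → F) (Φ : Fin m → MvPolynomial (Fin r) B) :
    MvPolynomial (Fin r) F := ∑ i, C (a i) * map (algebraMap B F) (Φ i)

theorem lin_hom {F : Type} [Field F] [Algebra B F] (a : Fin m → F)
    {Φ : Fin m → MvPolynomial (Fin r) B} (hΦ : ∀ i, (Φ i).IsHomogeneous e) :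
    (lin a Φ).IsHomogeneous e := by
  apply IsHomogeneous.sum
  intro i _
  have h1 := (isHomogeneous_C (Fin r) (a i)).mul ((hΦ i).map (algebraMap B F))
  rwa [zero_add] at h1

theorem aeval_map' {F N : Type} [Field F] [Algebra B F] [Field N] [Algebra F N] (z : Fin r → N)
    (G : MvPolynomial (Fin r) B) :
    aeval z (map (algebraMap B F) G) = eval₂ ((algebraMap F N).comp (algebraMap B F)) z G := by
  rw [aeval_def, eval₂_map]

theorem aeval_lin {F N : Type} [Field F] [Algebra B F] [Field N] [Algebra F N] (z : Fin r → N)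
    (a : Fin m → F) (Φ : Fin m → MvPolynomial (Fin r) B) :
    aeval z (lin a Φ) =
      ∑ i, algebraMap F N (a i) * eval₂ ((algebraMap F N).comp (algebraMap B F)) z (Φ i) := by
  rw [lin, map_sum]
  refine Finset.sum_congr rfl fun i _ => ?_
  rw [map_mul, aeval_C, aeval_map']

end forms

theorem two (h : S_PL) (h1 : S_ONE) : S_TWO := by
  intro B _ _ r e m
  induction m with
  | zero =>
    intro Z Φ hZ hΦ hB ι K E _ _ _ _ _ a b c _ _ y hy h2 _ _
    exact absurd (hB E _ y h2 fun i => i.elim0) hy
  | succ m ih =>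
    intro Z Φ hZ hΦ hB ι K E _ _ _ _ _ a b c hind htop y hy hZy ha hb
    have hZ' := hom_insert hZ hΦ
    have hB' := bpf_insert hB
    have hΦ' : ∀ i : Fin m, (Φ i.castSucc).IsHomogeneous e := fun i => hΦ _
    rw [Fin.sum_univ_castSucc] at ha hb
    by_cases hy0 : eval₂ ((algebraMap K E).comp (algebraMap B K)) y (Φ (Fin.last m)) = 0
    · rw [hy0, mul_zero, add_zero] at ha hb
      refine ih _ _ hZ' hΦ' hB' ((Unit ⊕ Unit) ⊕ ι) K E (fun i => a i.castSucc)
        (fun i => b i.castSucc)
        (Sum.elim (Sum.elim (fun _ => a (Fin.last m)) (fun _ => b (Fin.last m))) c)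
        ?_ ?_ y hy ?_ ha hb
      · let f : (Fin m ⊕ Fin m) ⊕ ((Unit ⊕ Unit) ⊕ ι) → (Fin (m + 1) ⊕ Fin (m + 1)) ⊕ ι :=
          Sum.elim (Sum.elim (fun i => Sum.inl (Sum.inl i.castSucc))
            (fun i => Sum.inl (Sum.inr i.castSucc)))
            (Sum.elim (Sum.elim (fun _ => Sum.inl (Sum.inl (Fin.last m)))
              (fun _ => Sum.inl (Sum.inr (Fin.last m)))) Sum.inr)
        have hf : Function.Injective f := by
          rintro ((i | i) | ((i | i) | i)) ((j | j) | ((j | j) | j)) hij
          all_goals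
            simp [f, Fin.ext_iff] at hij ⊢
            try exact hij
          all_goals omega
        have h3 := hind.comp f hf
        convert h3 using 1
        funext x
        rcases x with ((i | i) | ((i | i) | i)) <;> rfl
      · rw [← top_le_iff, ← htop]
        apply adjoin.mono
        rintro x ((⟨i, rfl⟩ | ⟨i, rfl⟩) | ⟨i, rfl⟩)
        · refine Fin.lastCases ?_ (fun j => ?_) i
          · exact Or.inr ⟨Sum.inl (Sum.inl ()), rfl⟩
          · exact Or.inl (Or.inl ⟨j, rfl⟩)
        · refine Fin.lastCases ?_ (fun j => ?_) i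
          · exact Or.inr ⟨Sum.inl (Sum.inr ()), rfl⟩
          · exact Or.inl (Or.inr ⟨j, rfl⟩)
        · exact Or.inr ⟨Sum.inr i, rfl⟩
      · intro G hG
        rcases hG with rfl | hG
        · exact hy0
        · exact hZy G hG
    · set S : Set K := Set.range a ∪ Set.range (fun i : Fin m => b i.castSucc) ∪ Set.range c with hS
      have hgen : adjoin (adjoin B S) {b (Fin.last m)} = ⊤ := by
        apply gen_step htop
        rintro x ((⟨i, rfl⟩ | ⟨i, rfl⟩) | ⟨i, rfl⟩)
        · exact Or.inl (Or.inl (Or.inl ⟨i, rfl⟩))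
        · refine Fin.lastCases ?_ (fun j => ?_) i
          · exact Or.inr rfl
          · exact Or.inl (Or.inl (Or.inr ⟨j, rfl⟩))
        · exact Or.inl (Or.inr ⟨i, rfl⟩)
      have htr : Transcendental (adjoin B S) (b (Fin.last m)) := by
        refine transc (i := Sum.inl (Sum.inr (Fin.last m)))
          (s := {Sum.inl (Sum.inr (Fin.last m))}ᶜ) hind (fun hh => hh rfl) ?_
        ext x
        constructor
        · rintro ⟨((i | i) | i), hi, rfl⟩
          · exact Or.inl (Or.inl ⟨i, rfl⟩)
          · revert hi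
            refine Fin.lastCases (fun hi => absurd rfl hi) (fun j _ => ?_) i
            exact Or.inl (Or.inr ⟨j, rfl⟩)
          · exact Or.inr ⟨i, rfl⟩
        · rintro ((⟨i, rfl⟩ | ⟨i, rfl⟩) | ⟨i, rfl⟩)
          · exact ⟨Sum.inl (Sum.inl i), fun hh => by simp at hh, rfl⟩
          · exact ⟨Sum.inl (Sum.inr i.castSucc), fun hh => by
              simp [Fin.ext_iff] at hh
              omega, rfl⟩
          · exact ⟨Sum.inr i, fun hh => by simp at hh, rfl⟩
      have haS : ∀ i, a i ∈ adjoin B S := fun i => subset_adjoin _ _ (Or.inl (Or.inl ⟨i, rfl⟩))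
      have hbS : ∀ i : Fin m, b i.castSucc ∈ adjoin B S :=
        fun i => subset_adjoin _ _ (Or.inl (Or.inr ⟨i, rfl⟩))
      have hcS : ∀ i, c i ∈ adjoin B S := fun i => subset_adjoin _ _ (Or.inr ⟨i, rfl⟩)
      set a1 : Fin (m + 1) → adjoin B S := fun i => ⟨a i, haS i⟩ with ha1
      set b1 : Fin m → adjoin B S := fun i => ⟨b i.castSucc, hbS i⟩ with hb1
      set c1 : ι → adjoin B S := fun i => ⟨c i, hcS i⟩ with hc1
      have hfd : FiniteDimensional (adjoin B S)⟮algebraMap K E (b (Fin.last m))⟯ E :=
        fin_simple hgen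
      have hrk : finrank (adjoin B S)⟮algebraMap K E (b (Fin.last m))⟯ E = finrank K E :=
        finrank_simple hgen
      rw [← hrk]
      have hmap : (algebraMap (adjoin B S) E).comp (algebraMap B (adjoin B S)) =
          (algebraMap K E).comp (algebraMap B K) := rfl
      refine h (adjoin B S) E r e y (-(lin b1 fun i => Φ i.castSucc))
        (map (algebraMap B (adjoin B S)) (Φ (Fin.last m))) (algebraMap K E (b (Fin.last m)))
        (lin_hom _ hΦ').neg ((hΦ _).map _) ?_ hfd ?_ ?_ e (e ^ 2) (by rw [sq]) ?_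
      · exact (transcendental_algebraMap_iff (algebraMap K E).injective).2 htr
      · rw [aeval_map', hmap]
        exact hy0
      · rw [map_neg, aeval_lin, aeval_map', hmap]
        rw [neg_eq_iff_add_eq_zero]
        exact hb
      · intro κ _ _ _ z hz hv
        have hZz : ∀ G ∈ Z, eval₂ ((algebraMap (adjoin B S) κ).comp
            (algebraMap B (adjoin B S))) z G = 0 := by
          intro G hG
          obtain ⟨d, hd⟩ := hZ G hG
          rw [← aeval_map']
          apply hv d _ (hd.map _)
          rw [aeval_map', hmap]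
          exact hZy G hG
        have hsa : aeval z (lin a1 Φ) = 0 := by
          apply hv e _ (lin_hom _ hΦ)
          rw [aeval_lin, hmap, Fin.sum_univ_castSucc]
          exact ha
        rw [aeval_lin] at hsa
        refine ⟨?_, fun hP hQ => ?_⟩
        · refine h1 B r e (m + 1) Z Φ hZ hΦ hB (Fin m ⊕ ι) (adjoin B S) κ a1 (Sum.elim b1 c1)
            ?_ ?_ z hz hZz hsa
          · apply ind_sub
            let f : Fin (m + 1) ⊕ (Fin m ⊕ ι) → (Fin (m + 1) ⊕ Fin (m + 1)) ⊕ ι :=
              Sum.elim (fun i => Sum.inl (Sum.inl i))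
                (Sum.elim (fun i => Sum.inl (Sum.inr i.castSucc)) Sum.inr)
            have hf : Function.Injective f := by
              rintro (i | (i | i)) (j | (j | j)) hij <;> simp [f] at hij ⊢ <;> exact hij
            have h3 := hind.comp f hf
            convert h3 using 1
            funext x
            rcases x with (i | (i | i)) <;> rfl
          · apply gen_top
            congr 1
            ext x
            constructor
            · rintro ⟨_, (⟨i, rfl⟩ | ⟨(i | i), rfl⟩), rfl⟩
              · exact Or.inl (Or.inl ⟨i, rfl⟩)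
              · exact Or.inl (Or.inr ⟨i, rfl⟩)
              · exact Or.inr ⟨i, rfl⟩
            · rintro ((⟨i, rfl⟩ | ⟨i, rfl⟩) | ⟨i, rfl⟩)
              · exact ⟨a1 i, Or.inl ⟨i, rfl⟩, rfl⟩
              · exact ⟨b1 i, Or.inr ⟨Sum.inl i, rfl⟩, rfl⟩
              · exact ⟨c1 i, Or.inr ⟨Sum.inr i, rfl⟩, rfl⟩
        · rw [map_neg, neg_eq_zero, aeval_lin] at hP
          rw [aeval_map'] at hQ
          rw [Fin.sum_univ_castSucc, hQ, mul_zero, add_zero] at hsa
          refine ih _ _ hZ' hΦ' hB' (Unit ⊕ ι) (adjoin B S) κ (fun i => a1 i.castSucc) b1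
            (Sum.elim (fun _ => a1 (Fin.last m)) c1) ?_ ?_ z hz ?_ hsa hP
          · apply ind_sub
            let f : (Fin m ⊕ Fin m) ⊕ (Unit ⊕ ι) → (Fin (m + 1) ⊕ Fin (m + 1)) ⊕ ι :=
              Sum.elim (Sum.elim (fun i => Sum.inl (Sum.inl i.castSucc))
                (fun i => Sum.inl (Sum.inr i.castSucc)))
                (Sum.elim (fun _ => Sum.inl (Sum.inl (Fin.last m))) Sum.inr)
            have hf : Function.Injective f := by
              rintro ((i | i) | (i | i)) ((j | j) | (j | j)) hij
              all_goals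
                simp [f, Fin.ext_iff] at hij ⊢
                try exact hij
              all_goals omega
            have h3 := hind.comp f hf
            convert h3 using 1
            funext x
            rcases x with ((i | i) | (i | i)) <;> rfl
          · apply gen_top
            congr 1
            ext x
            constructor
            · rintro ⟨_, ((⟨i, rfl⟩ | ⟨i, rfl⟩) | ⟨(i | i), rfl⟩), rfl⟩
              · exact Or.inl (Or.inl ⟨i.castSucc, rfl⟩)
              · exact Or.inl (Or.inr ⟨i, rfl⟩)
              · exact Or.inl (Or.inl ⟨Fin.last m, rfl⟩)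
              · exact Or.inr ⟨i, rfl⟩
            · rintro ((⟨i, rfl⟩ | ⟨i, rfl⟩) | ⟨i, rfl⟩)
              · refine Fin.lastCases ?_ (fun j => ?_) i
                · exact ⟨a1 (Fin.last m), Or.inr ⟨Sum.inl (), rfl⟩, rfl⟩
                · exact ⟨a1 j.castSucc, Or.inl (Or.inl ⟨j, rfl⟩), rfl⟩
              · exact ⟨b1 i, Or.inl (Or.inr ⟨i, rfl⟩), rfl⟩
              · exact ⟨c1 i, Or.inr ⟨Sum.inr i, rfl⟩, rfl⟩
          · intro G hG
            rcases hG with rfl | hG
            · exact hQ
            · exact hZz G hG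

end

end Pool.Agent.Y261.LI
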